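import Pool.Agent.Q79.HC.Curve

/-!
# Counting the singular points
-/

set_option autoImplicit false

namespace Pool.Agent.Q79.HC

open MvPolynomial Pool.Agent.Chud Polynomial

theorem eq_inv_iff_mul_eq_one₀ {a c : ℂ} (hc : c ≠ 0) : a = c⁻¹ ↔ a * c = 1 :=
  (mul_eq_one_iff_eq_inv₀ hc).symm

/-- the second coordinate of the triple of `t` -/
noncomputable def yy (b : ℕ) (t : ℂ) : ℂ := t ^ b

/-- the third coordinate of the triple of `t` -/
noncomputable def zz (b : ℕ) (t : ℂ) : ℂ := (t ^ (b + 1))⁻¹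

/-- the three coordinates are different -/
structure Good (b : ℕ) (t : ℂ) : Prop where
  ne : t ≠ 0
  xy : t ≠ yy b t
  yz : yy b t ≠ zz b t
  zx : zz b t ≠ t

theorem prod_one {b : ℕ} {t : ℂ} (h : t ≠ 0) : t * yy b t * zz b t = 1 := by
  rw [yy, zz]
  have : t ^ (b + 1) ≠ 0 := pow_ne_zero _ h
  field_simp
  ring

/-- the point of the parameter -/
noncomputable def P (b : ℕ) (t : ℂ) : PP ℂ 2 := Pt t (yy b t) (zz b t)

theorem good_of {b : ℕ} (hb : 1 ≤ b) {t : ℂ} (h0 : t ≠ 0) (h1 : t ^ (b - 1) ≠ 1) (h2 : t ^ (2 * b + 1) ≠ 1)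
    (h3 : t ^ (b + 2) ≠ 1) : Good b t := by
  refine ⟨h0, ?_, ?_, ?_⟩
  · intro h
    apply h1
    apply mul_right_cancel₀ h0
    rw [← pow_succ, Nat.sub_add_cancel hb, one_mul]
    exact h.symm
  · intro h
    apply h2
    rw [yy, zz] at h
    have h4 : t ^ (b + 1) ≠ 0 := pow_ne_zero _ h0
    rw [eq_inv_iff_mul_eq_one₀ h4] at h
    rw [← h]
    ring
  · intro h
    apply h3
    rw [zz] at h
    have h4 : t ^ (b + 1) ≠ 0 := pow_ne_zero _ h0
    rw [inv_eq_iff_eq_inv, eq_inv_iff_mul_eq_one₀ h0] at h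
    rw [← h]
    ring

theorem good_iff {b : ℕ} (hb : 1 ≤ b) {t : ℂ} (h : Good b t) :
    t ^ (b - 1) ≠ 1 ∧ t ^ (2 * b + 1) ≠ 1 ∧ t ^ (b + 2) ≠ 1 := by
  refine ⟨?_, ?_, ?_⟩
  · intro h1
    apply h.xy
    have : t ^ (b - 1) * t = t := by rw [h1, one_mul]
    rw [← pow_succ, Nat.sub_add_cancel hb] at this
    exact this.symm
  · intro h1
    apply h.yz
    have h4 : t ^ (b + 1) ≠ 0 := pow_ne_zero _ h.ne
    rw [yy, zz, eq_inv_iff_mul_eq_one₀ h4, ← h1]
    ring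
  · intro h1
    apply h.zx
    rw [zz, inv_eq_iff_eq_inv, eq_inv_iff_mul_eq_one₀ h.ne, ← h1]
    ring

theorem one_of_cube {t : ℂ} {k j : ℕ} (h3 : t ^ 3 = 1) (hj : j = 1 ∨ j = 2) (h : t ^ (3 * k + j) = 1) :
    t = 1 := by
  rw [pow_add, pow_mul, h3, one_pow, one_mul] at h
  rcases hj with rfl | rfl
  · rwa [pow_one] at h
  · have : t ^ 3 = t ^ 2 * t := by ring
    rw [this, h, one_mul] at h3
    exact h3

/-- the parameters of the triple points -/
noncomputable def T (b : ℕ) : Finset ℂ := (nthRootsFinset (b ^ 2 + b + 1) (1 : ℂ)).erase 1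

/-- parameters of double points -/
noncomputable def A (b : ℕ) : Finset ℂ :=
  nthRootsFinset ((b - 1) * (b + 1)) (1 : ℂ) \ nthRootsFinset (b - 1) (1 : ℂ)

/-- parameters of double points -/
noncomputable def B (b : ℕ) : Finset ℂ :=
  nthRootsFinset (b * (b + 2)) (1 : ℂ) \ nthRootsFinset (b + 2) (1 : ℂ)

theorem card_roots {n : ℕ} (hn : 0 < n) : (nthRootsFinset n (1 : ℂ)).card = n :=
  (Complex.isPrimitiveRoot_exp n hn.ne').card_nthRootsFinset

theorem mem_roots' {n : ℕ} (hn : 0 < n) {t : ℂ} : t ∈ nthRootsFinset n (1 : ℂ) ↔ t ^ n = 1 :=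
  mem_nthRootsFinset hn _

theorem card_T (b : ℕ) : (T b).card = b ^ 2 + b := by
  rw [T, Finset.card_erase_of_mem ((mem_roots' (by positivity)).2 (one_pow _)),
    card_roots (by positivity)]
  rfl

theorem card_A {b : ℕ} (hb : 2 ≤ b) : (A b).card + (b - 1) = (b - 1) * (b + 1) := by
  have h1 : 0 < b - 1 := by omega
  have h2 : 0 < (b - 1) * (b + 1) := by positivity
  have hsub : nthRootsFinset (b - 1) (1 : ℂ) ⊆ nthRootsFinset ((b - 1) * (b + 1)) (1 : ℂ) := by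
    intro t ht
    rw [mem_roots' h1] at ht
    rw [mem_roots' h2, pow_mul, ht, one_pow]
  rw [A]
  have := Finset.card_sdiff_add_card_eq_card hsub
  rw [card_roots h1, card_roots h2] at this
  exact this

theorem card_B {b : ℕ} (hb : 1 ≤ b) : (B b).card + (b + 2) = b * (b + 2) := by
  have h1 : 0 < b + 2 := by omega
  have h2 : 0 < b * (b + 2) := by positivity
  have hsub : nthRootsFinset (b + 2) (1 : ℂ) ⊆ nthRootsFinset (b * (b + 2)) (1 : ℂ) := by
    intro t ht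
    rw [mem_roots' h1] at ht
    rw [mem_roots' h2, mul_comm, pow_mul, ht, one_pow]
  rw [B]
  have := Finset.card_sdiff_add_card_eq_card hsub
  rw [card_roots h1, card_roots h2] at this
  exact this

theorem mem_T {b : ℕ} {t : ℂ} : t ∈ T b ↔ t ≠ 1 ∧ t ^ (b ^ 2 + b + 1) = 1 := by
  rw [T, Finset.mem_erase, mem_roots' (by positivity)]

theorem mem_A {b : ℕ} (hb : 2 ≤ b) {t : ℂ} :
    t ∈ A b ↔ t ^ ((b - 1) * (b + 1)) = 1 ∧ t ^ (b - 1) ≠ 1 := by
  have h1 : 0 < b - 1 := by omega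
  rw [A, Finset.mem_sdiff, mem_roots' h1, mem_roots' (by positivity)]

theorem mem_B {b : ℕ} (hb : 1 ≤ b) {t : ℂ} :
    t ∈ B b ↔ t ^ (b * (b + 2)) = 1 ∧ t ^ (b + 2) ≠ 1 := by
  rw [B, Finset.mem_sdiff, mem_roots' (by positivity), mem_roots' (by positivity)]

theorem ne_zero_of_pow {n : ℕ} (hn : n ≠ 0) {t : ℂ} (h : t ^ n = 1) : t ≠ 0 := by
  rintro rfl
  rw [zero_pow hn] at h
  exact zero_ne_one h

theorem good_T {k : ℕ} (hk : 1 ≤ k) {t : ℂ} (ht : t ∈ T (3 * k)) : Good (3 * k) t := by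
  rw [mem_T] at ht
  obtain ⟨h1, h2⟩ := ht
  have h0 : t ≠ 0 := ne_zero_of_pow (by positivity) h2
  obtain ⟨m, rfl⟩ : ∃ m, k = m + 1 := ⟨k - 1, by omega⟩
  apply good_of (by omega) h0
  · intro h
    apply h1
    have e1 : (3 * (m + 1)) ^ 2 + 3 * (m + 1) + 1 = (3 * (m + 1) - 1) * (3 * m + 5) + 3 := by
      have : 3 * (m + 1) - 1 = 3 * m + 2 := by omega
      rw [this]; ring
    rw [e1, pow_add, pow_mul, h, one_pow, one_mul] at h2
    have e2 : 3 * (m + 1) - 1 = 3 * m + 2 := by omega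
    rw [e2] at h
    exact one_of_cube h2 (Or.inr rfl) h
  · intro h
    apply h1
    have e1 : ((3 * (m + 1)) ^ 2 + 3 * (m + 1) + 1) * 4 =
        (2 * (3 * (m + 1)) + 1) * (2 * (3 * (m + 1)) + 1) + 3 := by ring
    have h3 : t ^ (((3 * (m + 1)) ^ 2 + 3 * (m + 1) + 1) * 4) = 1 := by rw [pow_mul, h2, one_pow]
    rw [e1, pow_add, pow_mul, h, one_pow, one_mul] at h3
    have e2 : 2 * (3 * (m + 1)) + 1 = 3 * (2 * (m + 1)) + 1 := by ring
    rw [e2] at h
    exact one_of_cube h3 (Or.inl rfl) h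
  · intro h
    apply h1
    have e1 : (3 * (m + 1)) ^ 2 + 3 * (m + 1) + 1 = (3 * (m + 1) + 2) * (3 * m + 2) + 3 := by ring
    rw [e1, pow_add, pow_mul, h, one_pow, one_mul] at h2
    exact one_of_cube h2 (Or.inr rfl) h

theorem good_A {k : ℕ} (hk : 1 ≤ k) {t : ℂ} (ht : t ∈ A (3 * k)) : Good (3 * k) t := by
  rw [mem_A (by omega)] at ht
  obtain ⟨h2, h1⟩ := ht
  obtain ⟨m, rfl⟩ : ∃ m, k = m + 1 := ⟨k - 1, by omega⟩
  have e0 : 3 * (m + 1) - 1 = 3 * m + 2 := by omega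
  rw [e0] at h1 h2
  have h0 : t ≠ 0 := ne_zero_of_pow (by positivity) h2
  apply good_of (by omega) h0
  · rw [e0]
    exact h1
  · intro h
    apply h1
    have e1 : (3 * m + 2) * (3 * (m + 1) + 1) * 4 + 3 =
        (2 * (3 * (m + 1)) + 1) * (2 * (3 * (m + 1)) - 1) := by
      have : 2 * (3 * (m + 1)) - 1 = 6 * m + 5 := by omega
      rw [this]; ring
    have h3 : t ^ ((3 * m + 2) * (3 * (m + 1) + 1) * 4 + 3) = 1 := by
      rw [e1, pow_mul, h, one_pow]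
    rw [pow_add, pow_mul, h2, one_pow, one_mul] at h3
    have e2 : 2 * (3 * (m + 1)) + 1 = 3 * (2 * (m + 1)) + 1 := by ring
    rw [e2] at h
    rw [one_of_cube h3 (Or.inl rfl) h, one_pow]
  · intro h
    apply h1
    have e1 : (3 * m + 2) * (3 * (m + 1) + 1) = (3 * (m + 1) + 2) * (3 * m + 1) + 3 := by ring
    rw [e1, pow_add, pow_mul, h, one_pow, one_mul] at h2
    rw [one_of_cube h2 (Or.inr rfl) h, one_pow]

theorem good_B {k : ℕ} (hk : 1 ≤ k) {t : ℂ} (ht : t ∈ B (3 * k)) : Good (3 * k) t := by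
  rw [mem_B (by omega)] at ht
  obtain ⟨h2, h1⟩ := ht
  obtain ⟨m, rfl⟩ : ∃ m, k = m + 1 := ⟨k - 1, by omega⟩
  have h0 : t ≠ 0 := ne_zero_of_pow (by positivity) h2
  apply good_of (by omega) h0
  · intro h
    apply h1
    have e0 : 3 * (m + 1) - 1 = 3 * m + 2 := by omega
    rw [e0] at h
    have e1 : 3 * (m + 1) * (3 * (m + 1) + 2) = (3 * m + 2) * (3 * m + 6) + 3 := by ring
    rw [e1, pow_add, pow_mul, h, one_pow, one_mul] at h2
    rw [one_of_cube h2 (Or.inr rfl) h, one_pow]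
  · intro h
    apply h1
    have e1 : (3 * (m + 1) * (3 * (m + 1) + 2)) * 4 + 3 =
        (2 * (3 * (m + 1)) + 1) * (2 * (3 * (m + 1)) + 3) := by ring
    have h3 : t ^ ((3 * (m + 1) * (3 * (m + 1) + 2)) * 4 + 3) = 1 := by
      rw [e1, pow_mul, h, one_pow]
    rw [pow_add, pow_mul, h2, one_pow, one_mul] at h3
    have e2 : 2 * (3 * (m + 1)) + 1 = 3 * (2 * (m + 1)) + 1 := by ring
    rw [e2] at h
    rw [one_of_cube h3 (Or.inl rfl) h, one_pow]
  · exact h1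

theorem disj_TA {k : ℕ} (hk : 1 ≤ k) : Disjoint (T (3 * k)) (A (3 * k)) := by
  rw [Finset.disjoint_left]
  intro t ht ht'
  obtain ⟨g1, g2, g3⟩ := good_iff (by omega) (good_T hk ht)
  rw [mem_T] at ht
  rw [mem_A (by omega)] at ht'
  obtain ⟨m, rfl⟩ : ∃ m, k = m + 1 := ⟨k - 1, by omega⟩
  apply g3
  have e0 : 3 * (m + 1) - 1 = 3 * m + 2 := by omega
  rw [e0] at ht'
  have e1 : (3 * (m + 1)) ^ 2 + 3 * (m + 1) + 1 =
    (3 * m + 2) * (3 * (m + 1) + 1) + (3 * (m + 1) + 2) := by ring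
  have h := ht.2
  rw [e1, pow_add, ht'.1, one_mul] at h
  exact h

theorem disj_TB {k : ℕ} (hk : 1 ≤ k) : Disjoint (T (3 * k)) (B (3 * k)) := by
  rw [Finset.disjoint_left]
  intro t ht ht'
  obtain ⟨g1, g2, g3⟩ := good_iff (by omega) (good_T hk ht)
  rw [mem_T] at ht
  rw [mem_B (by omega)] at ht'
  obtain ⟨m, rfl⟩ : ∃ m, k = m + 1 := ⟨k - 1, by omega⟩
  apply g1
  have e0 : 3 * (m + 1) - 1 = 3 * m + 2 := by omega
  rw [e0]
  have e1 : 3 * (m + 1) * (3 * (m + 1) + 2) =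
    ((3 * (m + 1)) ^ 2 + 3 * (m + 1) + 1) + (3 * m + 2) := by ring
  have h := ht'.1
  rw [e1, pow_add, ht.2, one_mul] at h
  exact h

theorem disj_AB {k : ℕ} (hk : 1 ≤ k) : Disjoint (A (3 * k)) (B (3 * k)) := by
  rw [Finset.disjoint_left]
  intro t ht ht'
  obtain ⟨g1, g2, g3⟩ := good_iff (by omega) (good_A hk ht)
  rw [mem_A (by omega)] at ht
  rw [mem_B (by omega)] at ht'
  obtain ⟨m, rfl⟩ : ∃ m, k = m + 1 := ⟨k - 1, by omega⟩
  apply g2
  have e0 : 3 * (m + 1) - 1 = 3 * m + 2 := by omega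
  rw [e0] at ht
  have e1 : 3 * (m + 1) * (3 * (m + 1) + 2) =
    (3 * m + 2) * (3 * (m + 1) + 1) + (2 * (3 * (m + 1)) + 1) := by ring
  have h := ht'.1
  rw [e1, pow_add, ht.1, one_mul] at h
  exact h

/-- all parameters -/
noncomputable def Z (b : ℕ) : Finset ℂ := T b ∪ (A b ∪ B b)

theorem good_Z {k : ℕ} (hk : 1 ≤ k) {t : ℂ} (ht : t ∈ Z (3 * k)) : Good (3 * k) t := by
  rw [Z, Finset.mem_union, Finset.mem_union] at ht
  rcases ht with h | h | h
  · exact good_T hk h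
  · exact good_A hk h
  · exact good_B hk h

theorem fibre {b : ℕ} {t t' : ℂ} (h0 : t ≠ 0) (h0' : t' ≠ 0) (h : P b t' = P b t) :
    t' = t ∨ t' = yy b t ∨ t' = zz b t :=
  mem_fibre (prod_one h0) (prod_one h0') h.symm

theorem branchP {b : ℕ} (hb : 1 ≤ b) {x y z : ℂ} (hy : y = x ^ b) (h1 : x * y * z = 1) :
    Branch (pp b) x (V x y z) (W b x y z) := branch hb hy h1

variable {F : MvPolynomial (Fin 3) ℂ} {d : ℕ}

theorem mult_T {b : ℕ} (hb : 1 ≤ b) (hF : F.IsHomogeneous d) (h0 : aeval (pp b) F = 0) {t : ℂ}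
    (ht : t ^ (b ^ 2 + b + 1) = 1) (hg : Good b t) : F ∈ mI (P b t).rep ^ 3 := by
  have hne := hg.ne
  have h1 := prod_one (b := b) hne
  have hxz : t ≠ 0 ∧ t ^ (b + 1) ≠ 0 := ⟨hne, pow_ne_zero _ hne⟩
  have hz : zz b t = yy b t ^ b := by
    rw [zz, yy, inv_eq_iff_eq_inv, eq_inv_iff_mul_eq_one₀ (pow_ne_zero _ (pow_ne_zero _ hne)), ← ht]
    ring
  have hx : t = zz b t ^ b := by
    rw [zz, inv_pow, eq_inv_iff_mul_eq_one₀ (pow_ne_zero _ hxz.2), ← ht]
    ring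
  set y := yy b t with hy
  set z := zz b t with hzz
  have b1 := branch hb hy h1
  have b2 := branch (x := y) (y := z) (z := t) hb hz (by rw [← h1]; ring)
  have b3 := branch (x := z) (y := t) (z := y) hb hx (by rw [← h1]; ring)
  rw [V_perm1] at b2
  rw [← V_perm1 z t y] at b3
  refine three_mem hF h0 rfl rfl rfl b1 b2 b3 (det_cyc b h1 hg.xy hg.yz hg.zx) ?_
    (det_cyc b (by rw [← h1]; ring) hg.yz hg.zx hg.xy)
  have := det_cyc b (x := z) (y := t) (z := y) (by rw [← h1]; ring) hg.zx hg.xy hg.yz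
  intro h
  apply this
  linear_combination (-1 : ℂ) * h

theorem mult_A {b : ℕ} (hb : 2 ≤ b) (hF : F.IsHomogeneous d) (h0 : aeval (pp b) F = 0) {t : ℂ}
    (ht : t ^ ((b - 1) * (b + 1)) = 1) (hg : Good b t) : F ∈ mI (P b t).rep ^ 2 := by
  have hne := hg.ne
  have h1 := prod_one (b := b) hne
  have hx : t = yy b t ^ b := by
    rw [yy]
    obtain ⟨m, rfl⟩ : ∃ m, b = m + 1 := ⟨b - 1, by omega⟩
    rw [Nat.add_sub_cancel] at ht
    have e : (t ^ (m + 1)) ^ (m + 1) = t ^ (m * (m + 1 + 1)) * t := by ring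
    rw [e, ht, one_mul]
  have b1 := branch (b := b) (by omega) (rfl : yy b t = t ^ b) h1
  have b2 := branch (x := yy b t) (y := t) (z := zz b t) (b := b) (by omega) hx
    (by rw [← h1]; ring)
  rw [V_perm2] at b2
  exact two_mem hF h0 rfl rfl b1 b2 (det_A hb h1 hg.xy hg.yz hg.zx)

theorem mult_B {b : ℕ} (hb : 1 ≤ b) (hF : F.IsHomogeneous d) (h0 : aeval (pp b) F = 0) {t : ℂ}
    (ht : t ^ (b * (b + 2)) = 1) (hg : Good b t) : F ∈ mI (P b t).rep ^ 2 := by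
  have hne := hg.ne
  have h1 := prod_one (b := b) hne
  have hx : yy b t = zz b t ^ b := by
    rw [yy, zz, inv_pow, eq_inv_iff_mul_eq_one₀ (pow_ne_zero _ (pow_ne_zero _ hne)), ← ht]
    ring
  have b1 := branch (b := b) hb (rfl : yy b t = t ^ b) h1
  have b2 := branch (x := zz b t) (y := yy b t) (z := t) (b := b) hb hx (by rw [← h1]; ring)
  have e : V (zz b t) (yy b t) t = V t (yy b t) (zz b t) := by
    rw [← V_perm1 (zz b t) (yy b t) t, V_perm2 t (yy b t) (zz b t)]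
  rw [e] at b2
  exact two_mem hF h0 rfl rfl b1 b2 (det_B hb h1 hg.xy hg.yz hg.zx)

end Pool.Agent.Q79.HC
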