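import Pool.Agent.Q79.HC.Mult

/-!
# The curves

For `b = 3 k` the curve parametrised by `t ↦ (x₁ + x₂ + x₃ : x₁ x₂ + x₂ x₃ + x₃ x₁ : 1)`, where
`x₁ = t`, `x₂ = t ^ b`, `x₃ = 1 / t ^ (b + 1)`.
-/

set_option autoImplicit false

namespace Pool.Agent.Q79.HC

open MvPolynomial Pool.Agent.Chud

/-- the parametrisation -/
noncomputable def pp (b : ℕ) : Fin 3 → Polynomial ℂ :=
  ![Polynomial.X ^ (b + 2) + Polynomial.X ^ (2 * b + 1) + 1,
    Polynomial.X ^ b + Polynomial.X + Polynomial.X ^ (2 * b + 2), Polynomial.X ^ (b + 1)]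

theorem natDegree_pp (b : ℕ) (i : Fin 3) : (pp b i).natDegree ≤ 2 * b + 2 := by
  fin_cases i
  · change (Polynomial.X ^ (b + 2) + Polynomial.X ^ (2 * b + 1) + 1 : Polynomial ℂ).natDegree ≤ _
    compute_degree
    omega
  · change (Polynomial.X ^ b + Polynomial.X + Polynomial.X ^ (2 * b + 2) : Polynomial ℂ).natDegree ≤ _
    compute_degree
    omega
  · change (Polynomial.X ^ (b + 1) : Polynomial ℂ).natDegree ≤ _
    compute_degree
    omega

/-- the point with the coordinates `e₁`, `e₂`, `1` -/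
noncomputable def V (x y z : ℂ) : Fin 3 → ℂ := ![x + y + z, x * y + y * z + z * x, 1]

/-- the tangent vector -/
noncomputable def W (b : ℕ) (x y z : ℂ) : Fin 3 → ℂ :=
  ![y * z * (x + b * y - (b + 1) * z), y * z * (-(y * z) - b * (x * z) + (b + 1) * (x * y)), 0]

theorem branch {b : ℕ} (hb : 1 ≤ b) {x y z : ℂ} (hy : y = x ^ b) (h1 : x * y * z = 1) :
    Branch (pp b) x (V x y z) (W b x y z) := by
  have hx0 : x ≠ 0 := by
    rintro rfl
    simp at h1
  have hy0 : y ≠ 0 := by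
    rintro rfl
    simp at h1
  have e1 : x ^ (b + 2) = x ^ 2 * y := by rw [hy]; ring
  have e2 : x ^ (2 * b + 1) = x * y ^ 2 := by rw [hy]; ring
  have e3 : x ^ (2 * b + 2) = x ^ 2 * y ^ 2 := by rw [hy]; ring
  have e4 : x ^ (b + 1) = x * y := by rw [hy]; ring
  have e5 : x ^ (2 * b) = y ^ 2 := by rw [hy]; ring
  have e6 : x ^ (b - 1) = y ^ 2 * z := by
    have : x ^ (b - 1) * x = y := by rw [hy, ← pow_succ, Nat.sub_add_cancel hb]
    apply mul_right_cancel₀ hx0
    rw [this]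
    linear_combination (-y) * h1
  refine ⟨x * y, (b + 1) * y, mul_ne_zero hx0 hy0, ?_, ?_⟩
  · intro i
    fin_cases i
    · change (Polynomial.X ^ (b + 2) + Polynomial.X ^ (2 * b + 1) + 1 : Polynomial ℂ).eval x =
        x * y * (x + y + z)
      simp only [Polynomial.eval_add, Polynomial.eval_pow, Polynomial.eval_X, Polynomial.eval_one]
      rw [e1, e2]
      linear_combination (-1 : ℂ) * h1
    · change (Polynomial.X ^ b + Polynomial.X + Polynomial.X ^ (2 * b + 2) : Polynomial ℂ).eval x =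
        x * y * (x * y + y * z + z * x)
      simp only [Polynomial.eval_add, Polynomial.eval_pow, Polynomial.eval_X]
      rw [e3, ← hy]
      linear_combination (-y - x) * h1
    · change (Polynomial.X ^ (b + 1) : Polynomial ℂ).eval x = x * y * 1
      simp only [Polynomial.eval_pow, Polynomial.eval_X]
      rw [e4, mul_one]
  · intro i
    fin_cases i
    · change (Polynomial.derivative (Polynomial.X ^ (b + 2) + Polynomial.X ^ (2 * b + 1) + 1 :
        Polynomial ℂ)).eval x = (b + 1) * y * (x + y + z) + x * y *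
          (y * z * (x + b * y - (b + 1) * z))
      simp only [Polynomial.derivative_add, Polynomial.derivative_X_pow, Polynomial.derivative_one,
        Polynomial.eval_add, Polynomial.eval_mul, Polynomial.eval_pow, Polynomial.eval_X,
        Polynomial.eval_natCast, Polynomial.eval_zero, Polynomial.eval_C, add_zero]
      have f1 : b + 2 - 1 = b + 1 := by omega
      have f2 : 2 * b + 1 - 1 = 2 * b := by omega
      rw [f1, f2, e4, e5]
      push_cast
      linear_combination (-(y * (x + b * y - (b + 1) * z))) * h1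
    · change (Polynomial.derivative (Polynomial.X ^ b + Polynomial.X + Polynomial.X ^ (2 * b + 2) :
        Polynomial ℂ)).eval x = (b + 1) * y * (x * y + y * z + z * x) + x * y *
          (y * z * (-(y * z) - b * (x * z) + (b + 1) * (x * y)))
      simp only [Polynomial.derivative_add, Polynomial.derivative_X_pow, Polynomial.derivative_X,
        Polynomial.eval_add, Polynomial.eval_mul, Polynomial.eval_pow, Polynomial.eval_X,
        Polynomial.eval_natCast, Polynomial.eval_one, Polynomial.eval_C]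
      have f2 : 2 * b + 2 - 1 = 2 * b + 1 := by omega
      rw [f2, e6, e2]
      push_cast
      linear_combination (-(y * (-(y * z) - b * (x * z) + (b + 1) * (x * y))) - 1) * h1
    · change (Polynomial.derivative (Polynomial.X ^ (b + 1) : Polynomial ℂ)).eval x =
        (b + 1) * y * 1 + x * y * 0
      simp only [Polynomial.derivative_X_pow, Polynomial.eval_mul, Polynomial.eval_pow,
        Polynomial.eval_X, Polynomial.eval_natCast, Polynomial.eval_C]
      rw [Nat.add_sub_cancel, ← hy]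
      push_cast
      ring

theorem Branch.smul {p : Fin 3 → Polynomial ℂ} {t : ℂ} {v w : Fin 3 → ℂ} (h : Branch p t v w)
    {a : ℂ} (ha : a ≠ 0) : Branch p t (fun i => a * v i) (fun i => a * w i) := by
  obtain ⟨c, e, hc, h1, h2⟩ := h.ex
  refine ⟨c * a⁻¹, e * a⁻¹, mul_ne_zero hc (inv_ne_zero ha), ?_, ?_⟩
  · intro i
    rw [h1]
    field_simp
  · intro i
    rw [h2]
    field_simp

theorem V_ne (x y z : ℂ) : V x y z ≠ 0 := by
  intro h
  have := congrFun h 2
  simp [V] at this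

/-- the point of the plane -/
noncomputable def Pt (x y z : ℂ) : PP ℂ 2 := Projectivization.mk ℂ (V x y z) (V_ne x y z)

theorem rep_Pt (x y z : ℂ) : ∃ a : ℂ, a ≠ 0 ∧ (Pt x y z).rep = fun i => a * V x y z i := by
  obtain ⟨a, ha⟩ := Projectivization.exists_smul_eq_mk_rep ℂ (V x y z) (V_ne x y z)
  refine ⟨a, a.ne_zero, ?_⟩
  rw [Pt, ← ha]
  rfl

theorem V_eq_of_Pt {x y z x' y' z' : ℂ} (h : Pt x y z = Pt x' y' z') :
    V x y z = V x' y' z' := by
  obtain ⟨a, ha⟩ := (Projectivization.mk_eq_mk_iff' ℂ _ _ _ _).1 h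
  have h2 := congrFun ha 2
  simp only [V, Pi.smul_apply, smul_eq_mul] at h2
  change a * 1 = 1 at h2
  rw [mul_one] at h2
  rw [h2, one_smul] at ha
  exact ha.symm

theorem mem_fibre {x y z x' y' z' : ℂ} (h1 : x * y * z = 1) (h1' : x' * y' * z' = 1)
    (h : Pt x y z = Pt x' y' z') : x' = x ∨ x' = y ∨ x' = z := by
  have hV := V_eq_of_Pt h
  have a0 : x + y + z = x' + y' + z' := congrFun hV 0
  have a1 : x * y + y * z + z * x = x' * y' + y' * z' + z' * x' := congrFun hV 1
  have h2 : (x' - x) * ((x' - y) * (x' - z)) = 0 := by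
    linear_combination (-x' ^ 2) * a0 + x' * a1 - h1 + h1'
  rcases mul_eq_zero.1 h2 with h3 | h3
  · exact Or.inl (sub_eq_zero.1 h3)
  · rcases mul_eq_zero.1 h3 with h3 | h3
    · exact Or.inr (Or.inl (sub_eq_zero.1 h3))
    · exact Or.inr (Or.inr (sub_eq_zero.1 h3))

variable {F : MvPolynomial (Fin 3) ℂ} {d : ℕ}

theorem two_mem {p : Fin 3 → Polynomial ℂ} (hF : F.IsHomogeneous d) (h0 : aeval p F = 0)
    {x y z : ℂ} {t t' : ℂ} {w w' : Fin 3 → ℂ} (hw : w 2 = 0) (hw' : w' 2 = 0)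
    (hb : Branch p t (V x y z) w) (hb' : Branch p t' (V x y z) w')
    (hne : w 0 * w' 1 - w 1 * w' 0 ≠ 0) : F ∈ mI (Pt x y z).rep ^ 2 := by
  obtain ⟨a, ha, hrep⟩ := rep_Pt x y z
  rw [hrep]
  refine mem_two hF h0 ?_ ?_ ?_ (hb.smul ha) (hb'.smul ha) ?_
  · change a * V x y z 2 ≠ 0
    have : V x y z 2 = 1 := rfl
    rw [this, mul_one]
    exact ha
  · change a * w 2 = 0
    rw [hw, mul_zero]
  · change a * w' 2 = 0
    rw [hw', mul_zero]
  · intro h
    apply hne
    refine (mul_eq_zero.1 (?_ : a ^ 2 * _ = 0)).resolve_left (pow_ne_zero 2 ha)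
    linear_combination h

theorem three_mem {p : Fin 3 → Polynomial ℂ} (hF : F.IsHomogeneous d) (h0 : aeval p F = 0)
    {x y z : ℂ} {t t' t'' : ℂ} {w w' w'' : Fin 3 → ℂ} (hw : w 2 = 0) (hw' : w' 2 = 0)
    (hw'' : w'' 2 = 0)
    (hb : Branch p t (V x y z) w) (hb' : Branch p t' (V x y z) w') (hb'' : Branch p t'' (V x y z) w'')
    (hne : w 0 * w' 1 - w 1 * w' 0 ≠ 0) (hne' : w 0 * w'' 1 - w 1 * w'' 0 ≠ 0)
    (hne'' : w' 0 * w'' 1 - w' 1 * w'' 0 ≠ 0) : F ∈ mI (Pt x y z).rep ^ 3 := by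
  obtain ⟨a, ha, hrep⟩ := rep_Pt x y z
  rw [hrep]
  refine mem_three hF h0 ?_ ?_ ?_ ?_ (hb.smul ha) (hb'.smul ha) (hb''.smul ha) ?_ ?_ ?_
  · change a * V x y z 2 ≠ 0
    have : V x y z 2 = 1 := rfl
    rw [this, mul_one]
    exact ha
  · change a * w 2 = 0
    rw [hw, mul_zero]
  · change a * w' 2 = 0
    rw [hw', mul_zero]
  · change a * w'' 2 = 0
    rw [hw'', mul_zero]
  · intro h
    apply hne
    refine (mul_eq_zero.1 (?_ : a ^ 2 * _ = 0)).resolve_left (pow_ne_zero 2 ha)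
    linear_combination h
  · intro h
    apply hne'
    refine (mul_eq_zero.1 (?_ : a ^ 2 * _ = 0)).resolve_left (pow_ne_zero 2 ha)
    linear_combination h
  · intro h
    apply hne''
    refine (mul_eq_zero.1 (?_ : a ^ 2 * _ = 0)).resolve_left (pow_ne_zero 2 ha)
    linear_combination h

theorem V_perm1 (x y z : ℂ) : V y z x = V x y z := by
  funext i
  fin_cases i
  · change y + z + x = x + y + z; ring
  · change y * z + z * x + x * y = x * y + y * z + z * x; ring
  · rfl

theorem V_perm2 (x y z : ℂ) : V y x z = V x y z := by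
  funext i
  fin_cases i
  · change y + x + z = x + y + z; ring
  · change y * x + x * z + z * y = x * y + y * z + z * x; ring
  · rfl

/-- cyclic permutation of the three parameters: different tangents -/
theorem det_cyc (b : ℕ) {x y z : ℂ} (h1 : x * y * z = 1) (hxy : x ≠ y) (hyz : y ≠ z) (hzx : z ≠ x) :
    W b x y z 0 * W b y z x 1 - W b x y z 1 * W b y z x 0 ≠ 0 := by
  have hx : x ≠ 0 := by rintro rfl; simp at h1
  have hy : y ≠ 0 := by rintro rfl; simp at h1
  have hz : z ≠ 0 := by rintro rfl; simp at h1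
  have hκ : (b : ℂ) ^ 2 + b + 1 ≠ 0 := by
    have : ((b ^ 2 + b + 1 : ℕ) : ℂ) ≠ 0 := Nat.cast_ne_zero.2 (by positivity)
    push_cast at this
    exact this
  have h : W b x y z 0 * W b y z x 1 - W b x y z 1 * W b y z x 0 =
      -(x * y * z ^ 2 * ((b : ℂ) ^ 2 + b + 1) * ((x - y) * (y - z) * (z - x))) := by
    change (y * z * (x + b * y - (b + 1) * z)) *
      (z * x * (-(z * x) - b * (y * x) + (b + 1) * (y * z))) -
      (y * z * (-(y * z) - b * (x * z) + (b + 1) * (x * y))) *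
      (z * x * (y + b * z - (b + 1) * x)) = _
    ring
  rw [h]
  exact neg_ne_zero.2 (mul_ne_zero (mul_ne_zero (mul_ne_zero (mul_ne_zero hx hy) (pow_ne_zero 2 hz))
    hκ) (mul_ne_zero (mul_ne_zero (sub_ne_zero.2 hxy) (sub_ne_zero.2 hyz)) (sub_ne_zero.2 hzx)))

theorem det_A {b : ℕ} (hb : 2 ≤ b) {x y z : ℂ} (h1 : x * y * z = 1) (hxy : x ≠ y) (hyz : y ≠ z)
    (hzx : z ≠ x) : W b x y z 0 * W b y x z 1 - W b x y z 1 * W b y x z 0 ≠ 0 := by
  have hx : x ≠ 0 := by rintro rfl; simp at h1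
  have hy : y ≠ 0 := by rintro rfl; simp at h1
  have hz : z ≠ 0 := by rintro rfl; simp at h1
  have hκ : (b : ℂ) ^ 2 - 1 ≠ 0 := by
    intro h
    have h2 : ((b ^ 2 : ℕ) : ℂ) = ((1 : ℕ) : ℂ) := by push_cast; exact sub_eq_zero.1 h
    have h3 := Nat.cast_injective h2
    nlinarith
  have h : W b x y z 0 * W b y x z 1 - W b x y z 1 * W b y x z 0 =
      x * y * z ^ 2 * ((b : ℂ) ^ 2 - 1) * ((x - y) * (y - z) * (z - x)) := by
    change (y * z * (x + b * y - (b + 1) * z)) *
      (x * z * (-(x * z) - b * (y * z) + (b + 1) * (y * x))) -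
      (y * z * (-(y * z) - b * (x * z) + (b + 1) * (x * y))) *
      (x * z * (y + b * x - (b + 1) * z)) = _
    ring
  rw [h]
  exact (mul_ne_zero (mul_ne_zero (mul_ne_zero (mul_ne_zero hx hy) (pow_ne_zero 2 hz))
    hκ) (mul_ne_zero (mul_ne_zero (sub_ne_zero.2 hxy) (sub_ne_zero.2 hyz)) (sub_ne_zero.2 hzx)))

theorem det_B {b : ℕ} (hb : 1 ≤ b) {x y z : ℂ} (h1 : x * y * z = 1) (hxy : x ≠ y) (hyz : y ≠ z)
    (hzx : z ≠ x) : W b x y z 0 * W b z y x 1 - W b x y z 1 * W b z y x 0 ≠ 0 := by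
  have hx : x ≠ 0 := by rintro rfl; simp at h1
  have hy : y ≠ 0 := by rintro rfl; simp at h1
  have hz : z ≠ 0 := by rintro rfl; simp at h1
  have hκ : (b : ℂ) ^ 2 + 2 * b ≠ 0 := by
    have : ((b ^ 2 + 2 * b : ℕ) : ℂ) ≠ 0 := Nat.cast_ne_zero.2 (by positivity)
    push_cast at this
    exact this
  have h : W b x y z 0 * W b z y x 1 - W b x y z 1 * W b z y x 0 =
      -(x * y ^ 2 * z * ((b : ℂ) ^ 2 + 2 * b) * ((x - y) * (y - z) * (z - x))) := by
    change (y * z * (x + b * y - (b + 1) * z)) *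
      (y * x * (-(y * x) - b * (z * x) + (b + 1) * (z * y))) -
      (y * z * (-(y * z) - b * (x * z) + (b + 1) * (x * y))) *
      (y * x * (z + b * y - (b + 1) * x)) = _
    ring
  rw [h]
  exact neg_ne_zero.2 (mul_ne_zero (mul_ne_zero (mul_ne_zero (mul_ne_zero hx (pow_ne_zero 2 hy)) hz)
    hκ) (mul_ne_zero (mul_ne_zero (sub_ne_zero.2 hxy) (sub_ne_zero.2 hyz)) (sub_ne_zero.2 hzx)))

end Pool.Agent.Q79.HC
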