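import Pool.Agent.Q79.HC.Param

/-!
# Multiplicities of parametrised plane curves

If two (three) branches with pairwise different tangents pass through a point, then the multiplicity
of the curve at this point is at least two (three).
-/

set_option autoImplicit false

namespace Pool.Agent.Q79.HC

open MvPolynomial Pool.Agent.Chud

theorem pderiv_trans {σ : Type*} (v : σ → ℂ) (F : MvPolynomial σ ℂ) (i : σ) :
    pderiv i (Chud.trans v F) = Chud.trans v (pderiv i F) := by
  classical
  induction F using MvPolynomial.induction_on with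
  | C a => simp [Chud.trans]
  | add p q hp hq => simp only [map_add, hp, hq]
  | mul_X p j hp =>
    have h1 : Chud.trans v (X j : MvPolynomial σ ℂ) = X j + C (v j) := by simp [Chud.trans]
    rw [map_mul, h1, Derivation.leibniz, Derivation.leibniz, map_add, pderiv_C, add_zero,
      smul_eq_mul, smul_eq_mul, smul_eq_mul, smul_eq_mul, map_add, map_mul, map_mul, hp, h1]
    congr 2
    by_cases hij : i = j
    · subst hij
      simp
    · rw [pderiv_X_of_ne (Ne.symm hij), map_zero]

theorem mem_mI_succ {σ : Type*} [Finite σ] {F : MvPolynomial σ ℂ} (v : σ → ℂ) (m : ℕ)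
    (h0 : eval v F = 0) (h : ∀ i, pderiv i F ∈ mI v ^ m) : F ∈ mI v ^ (m + 1) := by
  classical
  rw [mI_pow_eq_comap, Ideal.mem_comap]
  change transE v F ∈ _
  rw [transE_apply, mem_pow_idealOfVars_iff']
  intro x hx
  by_cases hx0 : x = 0
  · rw [hx0]
    have := eval_trans v F
    rw [h0] at this
    rw [← this]
    have h2 : (eval (0 : σ → ℂ) : MvPolynomial σ ℂ →+* ℂ) = constantCoeff := by
      apply MvPolynomial.ringHom_ext
      · intro r; simp
      · intro i; simp
    rw [h2]
    rfl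
  · obtain ⟨i, hi⟩ : ∃ i, x i ≠ 0 := by
      by_contra hcon
      push Not at hcon
      exact hx0 (Finsupp.ext hcon)
    have h1 := h i
    rw [mI_pow_eq_comap, Ideal.mem_comap] at h1
    change transE v (pderiv i F) ∈ _ at h1
    rw [transE_apply, mem_pow_idealOfVars_iff', ← pderiv_trans] at h1
    have h3 : (x - Finsupp.single i 1) + Finsupp.single i 1 = x := by
      apply tsub_add_cancel_of_le
      rw [Finsupp.single_le_iff]
      omega
    have h4 : Finsupp.degree (x - Finsupp.single i 1) < m := by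
      have := congrArg Finsupp.degree h3
      rw [map_add, Finsupp.degree_single] at this
      omega
    have h5 := h1 _ h4
    rw [coeff_pderiv, h3] at h5
    refine (mul_eq_zero.1 h5).resolve_right ?_
    exact Nat.cast_add_one_ne_zero _

theorem pderiv_comm (i j : Fin 3) (F : MvPolynomial (Fin 3) ℂ) :
    pderiv j (pderiv i F) = pderiv i (pderiv j F) := by
  have h : ⁅(pderiv j : Derivation ℂ (MvPolynomial (Fin 3) ℂ) (MvPolynomial (Fin 3) ℂ)),
      (pderiv i : Derivation ℂ (MvPolynomial (Fin 3) ℂ) (MvPolynomial (Fin 3) ℂ))⁆ = 0 := by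
    apply MvPolynomial.derivation_ext
    intro k
    rw [Derivation.commutator_apply, pderiv_X, pderiv_X]
    simp only [Pi.single_apply, Derivation.coe_zero, Pi.zero_apply]
    split_ifs <;> simp
  have h2 := congrArg (fun D => D F) h
  simp only [Derivation.commutator_apply, Derivation.coe_zero, Pi.zero_apply] at h2
  exact sub_eq_zero.1 h2

theorem derivative_aeval (p : Fin 3 → Polynomial ℂ) (F : MvPolynomial (Fin 3) ℂ) :
    Polynomial.derivative (aeval p F) =
      ∑ i, aeval p (pderiv i F) * Polynomial.derivative (p i) := by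
  classical
  induction F using MvPolynomial.induction_on with
  | C a => simp
  | add p q hp hq => simp only [map_add, hp, hq, add_mul, Finset.sum_add_distrib]
  | mul_X q j hq =>
    rw [map_mul, Polynomial.derivative_mul, hq, aeval_X, Finset.sum_mul]
    have h1 : ∀ i, aeval p (pderiv i (q * X j)) * Polynomial.derivative (p i) =
        aeval p (pderiv i q) * Polynomial.derivative (p i) * p j +
          (if i = j then aeval p q * Polynomial.derivative (p i) else 0) := by
      intro i
      rw [Derivation.leibniz, smul_eq_mul, smul_eq_mul, map_add, map_mul, map_mul, aeval_X]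
      by_cases hij : i = j
      · subst hij
        rw [pderiv_X_self, map_one, if_pos rfl]
        ring
      · rw [pderiv_X_of_ne (Ne.symm hij), map_zero, if_neg hij]
        ring
    rw [Finset.sum_congr rfl fun i _ => h1 i, Finset.sum_add_distrib, Finset.sum_ite_eq']
    simp

/-- the parameter `t` is mapped to the point `v` and the tangent there is `w` -/
structure Branch (p : Fin 3 → Polynomial ℂ) (t : ℂ) (v w : Fin 3 → ℂ) : Prop where
  ex : ∃ c e : ℂ, c ≠ 0 ∧ (∀ i, (p i).eval t = c * v i) ∧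
    ∀ i, (Polynomial.derivative (p i)).eval t = e * v i + c * w i

variable {p : Fin 3 → Polynomial ℂ} {F : MvPolynomial (Fin 3) ℂ} {d : ℕ} {t : ℂ} {v w : Fin 3 → ℂ}

theorem Branch.eval (hb : Branch p t v w) (hF : F.IsHomogeneous d) (h0 : aeval p F = 0) :
    MvPolynomial.eval v F = 0 := by
  obtain ⟨c, e, hc, h1, -⟩ := hb.ex
  have h3 := eval_param (p := p) (G := F) t
  rw [h0, Polynomial.eval_zero] at h3
  have h2 : (fun i => (p i).eval t) = fun i => c * v i := funext h1
  rw [h2, eval_smul' hF] at h3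
  exact (mul_eq_zero.1 h3.symm).resolve_left (pow_ne_zero _ hc)

theorem euler (hF : F.IsHomogeneous d) (v : Fin 3 → ℂ) :
    ∑ i, v i * MvPolynomial.eval v (pderiv i F) = d * MvPolynomial.eval v F := by
  have h1 := congrArg (MvPolynomial.eval v) hF.sum_X_mul_pderiv
  rw [map_sum] at h1
  simp only [map_mul, eval_X, map_nsmul] at h1
  rw [h1]
  simp

theorem Branch.grad (hb : Branch p t v w) (hF : F.IsHomogeneous d) (h0 : aeval p F = 0) :
    ∑ i, MvPolynomial.eval v (pderiv i F) * w i = 0 := by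
  have hv := hb.eval hF h0
  obtain ⟨c, e, hc, h1, h2⟩ := hb.ex
  have h3 := congrArg (Polynomial.eval t) (derivative_aeval p F)
  rw [h0, Polynomial.derivative_zero, Polynomial.eval_zero, Polynomial.eval_finsetSum] at h3
  have h4 : (fun i => (p i).eval t) = fun i => c * v i := funext h1
  have h5 : ∀ i, ((aeval p (pderiv i F)) * Polynomial.derivative (p i)).eval t =
      c ^ (d - 1) * (e * (v i * MvPolynomial.eval v (pderiv i F)) +
        c * (MvPolynomial.eval v (pderiv i F) * w i)) := by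
    intro i
    rw [Polynomial.eval_mul, eval_param, h4, eval_smul' (hF.pderiv), h2]
    ring
  rw [Finset.sum_congr rfl fun i _ => h5 i, ← Finset.mul_sum, Finset.sum_add_distrib,
    ← Finset.mul_sum, ← Finset.mul_sum, euler hF, hv, mul_zero, mul_zero, zero_add] at h3
  have h6 := (mul_eq_zero.1 h3.symm).resolve_left (pow_ne_zero _ hc)
  exact (mul_eq_zero.1 h6).resolve_left hc

theorem Branch.hess (hb : Branch p t v w) (hF : F.IsHomogeneous d) (h0 : aeval p F = 0)
    (hg : ∀ i, MvPolynomial.eval v (pderiv i F) = 0) :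
    ∑ i, ∑ j, MvPolynomial.eval v (pderiv j (pderiv i F)) * w i * w j = 0 := by
  obtain ⟨c, e, hc, h1, h2⟩ := hb.ex
  have h3 := congrArg Polynomial.derivative (derivative_aeval p F)
  rw [h0, Polynomial.derivative_zero, Polynomial.derivative_zero, Polynomial.derivative_sum] at h3
  have h3 := congrArg (Polynomial.eval t) h3
  rw [Polynomial.eval_zero, Polynomial.eval_finsetSum] at h3
  have h4 : (fun i => (p i).eval t) = fun i => c * v i := funext h1
  have h5 : ∀ i, (Polynomial.derivative ((aeval p (pderiv i F)) * Polynomial.derivative (p i))).eval t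
      = c ^ (d - 1 - 1) * ∑ j, MvPolynomial.eval v (pderiv j (pderiv i F)) *
        (e * v j + c * w j) * (e * v i + c * w i) := by
    intro i
    rw [Polynomial.derivative_mul, Polynomial.eval_add, Polynomial.eval_mul, Polynomial.eval_mul,
      eval_param, h4, eval_smul' (hF.pderiv), hg, mul_zero, zero_mul, add_zero, derivative_aeval,
      Polynomial.eval_finsetSum, Finset.sum_mul, Finset.mul_sum]
    refine Finset.sum_congr rfl fun j _ => ?_
    rw [Polynomial.eval_mul, eval_param, h4, eval_smul' (hF.pderiv.pderiv), h2, h2]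
    ring
  rw [Finset.sum_congr rfl fun i _ => h5 i, ← Finset.mul_sum] at h3
  have h6 := (mul_eq_zero.1 h3.symm).resolve_left (pow_ne_zero _ hc)
  have hE : ∀ i, ∑ j, v j * MvPolynomial.eval v (pderiv j (pderiv i F)) = 0 := by
    intro i
    rw [euler (hF.pderiv), hg, mul_zero]
  have hcomm : ∀ i j, pderiv j (pderiv i F) = pderiv i (pderiv j F) := fun i j =>
    pderiv_comm i j F
  have h7 : ∀ i, ∑ j, MvPolynomial.eval v (pderiv j (pderiv i F)) *
        (e * v j + c * w j) * (e * v i + c * w i) =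
        c * ∑ j, MvPolynomial.eval v (pderiv j (pderiv i F)) * w j * (e * v i + c * w i) := by
    intro i
    have : ∀ j, MvPolynomial.eval v (pderiv j (pderiv i F)) *
        (e * v j + c * w j) * (e * v i + c * w i) =
        (e * (e * v i + c * w i)) * (v j * MvPolynomial.eval v (pderiv j (pderiv i F))) +
          c * (MvPolynomial.eval v (pderiv j (pderiv i F)) * w j * (e * v i + c * w i)) := by
      intro j; ring
    rw [Finset.sum_congr rfl fun j _ => this j, Finset.sum_add_distrib, ← Finset.mul_sum, hE,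
      mul_zero, zero_add, Finset.mul_sum]
  rw [Finset.sum_congr rfl fun i _ => h7 i, ← Finset.mul_sum, Finset.sum_comm] at h6
  have h8 := (mul_eq_zero.1 h6).resolve_left hc
  have h9 : ∀ j, ∑ i, MvPolynomial.eval v (pderiv j (pderiv i F)) * w j * (e * v i + c * w i) =
      c * ∑ i, MvPolynomial.eval v (pderiv j (pderiv i F)) * w i * w j := by
    intro j
    have : ∀ i, MvPolynomial.eval v (pderiv j (pderiv i F)) * w j * (e * v i + c * w i) =
        (e * w j) * (v i * MvPolynomial.eval v (pderiv i (pderiv j F))) +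
          c * (MvPolynomial.eval v (pderiv j (pderiv i F)) * w i * w j) := by
      intro i; rw [hcomm i j]; ring
    rw [Finset.sum_congr rfl fun j _ => this j, Finset.sum_add_distrib, ← Finset.mul_sum, hE,
      mul_zero, zero_add, Finset.mul_sum]
  rw [Finset.sum_congr rfl fun j _ => h9 j, ← Finset.mul_sum, Finset.sum_comm] at h8
  exact (mul_eq_zero.1 h8).resolve_left hc

/-- two branches with different tangents -/
theorem two_le (hF : F.IsHomogeneous d) (h0 : aeval p F = 0) {t t' : ℂ} {v w w' : Fin 3 → ℂ}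
    (hv : v 2 ≠ 0) (hw : w 2 = 0) (hw' : w' 2 = 0) (hb : Branch p t v w) (hb' : Branch p t' v w')
    (hne : w 0 * w' 1 - w 1 * w' 0 ≠ 0) : ∀ i, MvPolynomial.eval v (pderiv i F) = 0 := by
  have h1 := hb.grad hF h0
  have h2 := hb'.grad hF h0
  have h3 := euler hF v
  rw [hb.eval hF h0, mul_zero] at h3
  rw [Fin.sum_univ_three] at h1 h2 h3
  rw [hw, mul_zero, add_zero] at h1
  rw [hw', mul_zero, add_zero] at h2
  have e0 : MvPolynomial.eval v (pderiv 0 F) = 0 := by
    refine (mul_eq_zero.1 (?_ : (w 0 * w' 1 - w 1 * w' 0) * _ = 0)).resolve_left hne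
    linear_combination w' 1 * h1 - w 1 * h2
  have e1 : MvPolynomial.eval v (pderiv 1 F) = 0 := by
    refine (mul_eq_zero.1 (?_ : (w 0 * w' 1 - w 1 * w' 0) * _ = 0)).resolve_left hne
    linear_combination w 0 * h2 - w' 0 * h1
  have e2 : MvPolynomial.eval v (pderiv 2 F) = 0 := by
    rw [e0, e1, mul_zero, mul_zero, zero_add, zero_add] at h3
    exact (mul_eq_zero.1 h3).resolve_left hv
  intro i
  fin_cases i
  · exact e0
  · exact e1
  · exact e2

theorem mem_two (hF : F.IsHomogeneous d) (h0 : aeval p F = 0) {t t' : ℂ} {v w w' : Fin 3 → ℂ}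
    (hv : v 2 ≠ 0) (hw : w 2 = 0) (hw' : w' 2 = 0) (hb : Branch p t v w) (hb' : Branch p t' v w')
    (hne : w 0 * w' 1 - w 1 * w' 0 ≠ 0) : F ∈ mI v ^ 2 := by
  apply mem_mI_succ v 1 (hb.eval hF h0)
  intro i
  rw [pow_one, mI, RingHom.mem_ker]
  exact two_le hF h0 hv hw hw' hb hb' hne i

/-- three branches with different tangents -/
theorem mem_three (hF : F.IsHomogeneous d) (h0 : aeval p F = 0) {t t' t'' : ℂ}
    {v w w' w'' : Fin 3 → ℂ} (hv : v 2 ≠ 0) (hw : w 2 = 0) (hw' : w' 2 = 0) (hw'' : w'' 2 = 0)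
    (hb0 : Branch p t v w) (hb' : Branch p t' v w') (hb'' : Branch p t'' v w'')
    (hne : w 0 * w' 1 - w 1 * w' 0 ≠ 0) (hne' : w 0 * w'' 1 - w 1 * w'' 0 ≠ 0)
    (hne'' : w' 0 * w'' 1 - w' 1 * w'' 0 ≠ 0) : F ∈ mI v ^ 3 := by
  have hg := two_le hF h0 hv hw hw' hb0 hb' hne
  have h1 := hb0.hess hF h0 hg
  have h2 := hb'.hess hF h0 hg
  have h3 := hb''.hess hF h0 hg
  have hE : ∀ i, ∑ j, v j * MvPolynomial.eval v (pderiv j (pderiv i F)) = 0 := by
    intro i
    rw [euler (hF.pderiv), hg, mul_zero]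
  have hcomm : ∀ i j, pderiv j (pderiv i F) = pderiv i (pderiv j F) := fun i j =>
    pderiv_comm i j F
  have hE0 := hE 0
  have hE1 := hE 1
  have hE2 := hE 2
  simp only [Fin.sum_univ_three, hw, hw', hw'', mul_zero, add_zero] at h1 h2 h3 hE0 hE1 hE2
  rw [hcomm 0 1] at h1 h2 h3 hE0
  rw [hcomm 1 2] at hE1
  rw [hcomm 0 2] at hE0
  set a := MvPolynomial.eval v (pderiv 0 (pderiv 0 F))
  set b := MvPolynomial.eval v (pderiv 0 (pderiv 1 F))
  set c := MvPolynomial.eval v (pderiv 1 (pderiv 1 F))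
  set x := MvPolynomial.eval v (pderiv 0 (pderiv 2 F))
  set y := MvPolynomial.eval v (pderiv 1 (pderiv 2 F))
  set z := MvPolynomial.eval v (pderiv 2 (pderiv 2 F))
  have hD : (w 0 * w' 1 - w 1 * w' 0) * (w 0 * w'' 1 - w 1 * w'' 0) *
      (w' 0 * w'' 1 - w' 1 * w'' 0) ≠ 0 := mul_ne_zero (mul_ne_zero hne hne') hne''
  have ha : a = 0 := by
    refine (mul_eq_zero.1 (?_ : ((w 0 * w' 1 - w 1 * w' 0) * (w 0 * w'' 1 - w 1 * w'' 0) *
      (w' 0 * w'' 1 - w' 1 * w'' 0)) * _ = 0)).resolve_left hD
    linear_combination w' 1 * w'' 1 * (w' 0 * w'' 1 - w' 1 * w'' 0) * h1 -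
      w 1 * w'' 1 * (w 0 * w'' 1 - w 1 * w'' 0) * h2 + w 1 * w' 1 * (w 0 * w' 1 - w 1 * w' 0) * h3
  have hc : c = 0 := by
    refine (mul_eq_zero.1 (?_ : ((w 0 * w' 1 - w 1 * w' 0) * (w 0 * w'' 1 - w 1 * w'' 0) *
      (w' 0 * w'' 1 - w' 1 * w'' 0)) * _ = 0)).resolve_left hD
    linear_combination w' 0 * w'' 0 * (w' 0 * w'' 1 - w' 1 * w'' 0) * h1 -
      w 0 * w'' 0 * (w 0 * w'' 1 - w 1 * w'' 0) * h2 + w 0 * w' 0 * (w 0 * w' 1 - w 1 * w' 0) * h3
  have hb : b = 0 := by
    refine (mul_eq_zero.1 (?_ : ((w 0 * w' 1 - w 1 * w' 0) * (w 0 * w'' 1 - w 1 * w'' 0) *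
      (w' 0 * w'' 1 - w' 1 * w'' 0)) * _ = 0)).resolve_left hD
    linear_combination (-1 / 2 : ℂ) * (w' 0 * w'' 1 + w'' 0 * w' 1) *
        (w' 0 * w'' 1 - w' 1 * w'' 0) * h1 +
      (1 / 2 : ℂ) * (w 0 * w'' 1 + w'' 0 * w 1) * (w 0 * w'' 1 - w 1 * w'' 0) * h2 -
      (1 / 2 : ℂ) * (w 0 * w' 1 + w' 0 * w 1) * (w 0 * w' 1 - w 1 * w' 0) * h3
  have hx : x = 0 := by
    rw [ha, hb, mul_zero, mul_zero, zero_add, zero_add] at hE0
    exact (mul_eq_zero.1 hE0).resolve_left hv
  have hy : y = 0 := by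
    rw [hb, hc, mul_zero, mul_zero, zero_add, zero_add] at hE1
    exact (mul_eq_zero.1 hE1).resolve_left hv
  have hz : z = 0 := by
    rw [hx, hy, mul_zero, mul_zero, zero_add, zero_add] at hE2
    exact (mul_eq_zero.1 hE2).resolve_left hv
  have hall : ∀ i j, MvPolynomial.eval v (pderiv j (pderiv i F)) = 0 := by
    intro i j
    fin_cases i <;> fin_cases j
    · exact ha
    · change MvPolynomial.eval v (pderiv 1 (pderiv 0 F)) = 0
      rw [hcomm 0 1]; exact hb
    · change MvPolynomial.eval v (pderiv 2 (pderiv 0 F)) = 0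
      rw [hcomm 0 2]; exact hx
    · exact hb
    · exact hc
    · change MvPolynomial.eval v (pderiv 2 (pderiv 1 F)) = 0
      rw [hcomm 1 2]; exact hy
    · exact hx
    · exact hy
    · exact hz
  apply mem_mI_succ v 2 (hb0.eval hF h0)
  intro i
  apply mem_mI_succ v 1 (hg i)
  intro j
  rw [pow_one, mI, RingHom.mem_ker]
  exact hall i j

end Pool.Agent.Q79.HC
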