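import Pool.Agent.Chud.PBZ
import Pool.Agent.Chud.PA
import Pool.Agent.Chud.PB2

/-!
# Parametrised plane curves

A plane curve which is parametrised by three polynomials of degree at most `D` has an irreducible
equation of degree at most `D`.
-/

set_option autoImplicit false

namespace Pool.Agent.Q79.HC

open MvPolynomial Pool.Agent.Chud

/-- two relatively prime forms in three variables have finitely many common zeros -/
theorem finite_common {k : Type*} [Field k] {F G : MvPolynomial (Fin 3) k} {a b : ℕ}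
    (hF : F.IsHomogeneous a) (hG : G.IsHomogeneous b) (hF0 : F ≠ 0) (hG0 : G ≠ 0)
    (hrel : IsRelPrime F G) : {p : PP k 2 | eval p.rep F = 0 ∧ eval p.rep G = 0}.Finite := by
  by_contra hinf
  obtain ⟨P, hP, hcard⟩ := Set.Infinite.exists_subset_card_eq (s := {p : PP k 2 | eval p.rep F = 0 ∧ eval p.rep G = 0}) hinf (a * b + 1)
  have h := bezout hF hG hF0 hG0 hrel P (fun _ => 1) (fun _ => 1)
    (fun p hp => by rw [pow_one, mI, RingHom.mem_ker]; exact (hP hp).1)
    (fun p hp => by rw [pow_one, mI, RingHom.mem_ker]; exact (hP hp).2)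
  simp only [mul_one, Finset.sum_const, smul_eq_mul] at h
  omega

/-- value of a form along a parametrised curve -/
theorem eval_param {p : Fin 3 → Polynomial ℂ} {G : MvPolynomial (Fin 3) ℂ} (t : ℂ) :
    (aeval p G).eval t = eval (fun i => (p i).eval t) G := by
  induction G using MvPolynomial.induction_on with
  | C a => simp
  | add p q hp hq => simp [hp, hq]
  | mul_X p i hp => simp [hp]

theorem eval_smul' {G : MvPolynomial (Fin 3) ℂ} {n : ℕ} (hG : G.IsHomogeneous n) (c : ℂ)
    (v : Fin 3 → ℂ) : eval (fun i => c * v i) G = c ^ n * eval v G := by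
  rw [MvPolynomial.eval_eq', MvPolynomial.eval_eq', Finset.mul_sum]
  refine Finset.sum_congr rfl fun d hd => ?_
  have hd' : d.degree = n := by
    have := hG (mem_support_iff.1 hd)
    rw [← this, Finsupp.degree_eq_weight_one]
    rfl
  have h1 : ∏ i, (c * v i) ^ d i = c ^ n * ∏ i, v i ^ d i := by
    simp_rw [mul_pow]
    rw [Finset.prod_mul_distrib, Finset.prod_pow_eq_pow_sum, ← hd', Finsupp.degree_eq_sum]
  rw [h1]
  ring

/-- the points of the image of a parametrised curve -/
def img (p : Fin 3 → Polynomial ℂ) : Set (PP ℂ 2) :=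
  {q | ∃ t c : ℂ, c ≠ 0 ∧ ∀ i, (p i).eval t = c * q.rep i}

theorem eval_img {p : Fin 3 → Polynomial ℂ} {G : MvPolynomial (Fin 3) ℂ} {n : ℕ}
    (hG : G.IsHomogeneous n) (h0 : aeval p G = 0) {q : PP ℂ 2} (hq : q ∈ img p) :
    eval q.rep G = 0 := by
  obtain ⟨t, c, hc, h⟩ := hq
  have h1 := eval_param (p := p) (G := G) t
  rw [h0, Polynomial.eval_zero] at h1
  have h2 : (fun i => (p i).eval t) = fun i => c * q.rep i := funext h
  rw [h2, eval_smul' hG] at h1
  exact (mul_eq_zero.1 h1.symm).resolve_left (pow_ne_zero _ hc)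

theorem dvd_of_param {p : Fin 3 → Polynomial ℂ} (hinf : (img p).Infinite)
    {F G : MvPolynomial (Fin 3) ℂ} {d n : ℕ} (hF : F.IsHomogeneous d) (hFi : Irreducible F)
    (hF0 : aeval p F = 0) (hG : G.IsHomogeneous n) (hG0 : aeval p G = 0) : F ∣ G := by
  by_contra hnd
  have hGne : G ≠ 0 := by
    rintro rfl
    exact hnd (dvd_zero _)
  have hrel : IsRelPrime F G := (hFi.isRelPrime_iff_not_dvd).2 hnd
  exact hinf ((finite_common hF hG hFi.ne_zero hGne hrel).subset fun q hq =>
    ⟨eval_img hF hF0 hq, eval_img hG hG0 hq⟩)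

/-- the degree of a form on the curve -/
theorem natDegree_param {p : Fin 3 → Polynomial ℂ} {D : ℕ} (hp : ∀ i, (p i).natDegree ≤ D)
    {G : MvPolynomial (Fin 3) ℂ} {n : ℕ} (hG : G.IsHomogeneous n) :
    (aeval p G).natDegree ≤ D * n := by
  rw [aeval_def, eval₂_eq']
  refine Polynomial.natDegree_sum_le_of_forall_le _ _ fun d hd => ?_
  have hd' : d.degree = n := by
    have := hG (mem_support_iff.1 hd)
    rw [← this, Finsupp.degree_eq_weight_one]
    rfl
  refine (Polynomial.natDegree_C_mul_le _ _).trans ?_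
  refine (Polynomial.natDegree_prod_le _ _).trans ?_
  rw [← hd', Finsupp.degree_eq_sum, Finset.mul_sum]
  refine Finset.sum_le_sum fun i _ => ?_
  refine Polynomial.natDegree_pow_le.trans ?_
  rw [mul_comm D]
  exact Nat.mul_le_mul_left _ (hp i)

/-- pull back of forms -/
noncomputable def LL {p : Fin 3 → Polynomial ℂ} {D : ℕ} (hp : ∀ i, (p i).natDegree ≤ D) (n : ℕ) :
    homogeneousSubmodule (Fin 3) ℂ n →ₗ[ℂ] Polynomial.degreeLT ℂ (D * n + 1) :=
  LinearMap.codRestrict _ ((aeval p).toLinearMap ∘ₗ (homogeneousSubmodule (Fin 3) ℂ n).subtype)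
    (fun G => by
      rw [Polynomial.mem_degreeLT]
      refine lt_of_le_of_lt Polynomial.degree_le_natDegree ?_
      have := natDegree_param hp ((mem_homogeneousSubmodule n G.1).1 G.2)
      exact_mod_cast Nat.lt_succ_of_le this)

theorem LL_ker {p : Fin 3 → Polynomial ℂ} {D : ℕ} (hp : ∀ i, (p i).natDegree ≤ D) (n : ℕ)
    (G : homogeneousSubmodule (Fin 3) ℂ n) : G ∈ LinearMap.ker (LL hp n) ↔ aeval p G.1 = 0 := by
  rw [LinearMap.mem_ker, ← Subtype.coe_inj]
  rfl

theorem finrank_LL {p : Fin 3 → Polynomial ℂ} {D : ℕ} (hp : ∀ i, (p i).natDegree ≤ D) (n : ℕ) :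
    (n + 2).choose 2 ≤ D * n + 1 + Module.finrank ℂ (LinearMap.ker (LL hp n)) := by
  have h1 := LinearMap.finrank_range_add_finrank_ker (LL hp n)
  rw [finrank_forms] at h1
  have h2 : Module.finrank ℂ (LinearMap.range (LL hp n)) ≤ D * n + 1 := by
    refine (Submodule.finrank_le _).trans ?_
    rw [LinearEquiv.finrank_eq (Polynomial.degreeLTEquiv ℂ (D * n + 1))]
    simp
  omega

theorem two_choose (n : ℕ) : 2 * (n + 2).choose 2 = (n + 2) * (n + 1) := by
  have := Nat.triangle_succ (n + 1)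
  rw [Nat.choose_two_right]
  have h : 2 ∣ (n + 2) * (n + 2 - 1) := by
    have := Nat.even_mul_succ_self (n + 1)
    rw [even_iff_two_dvd] at this
    rw [mul_comm]
    exact this
  rw [Nat.mul_div_cancel' h]
  rfl

/-- a parametrised curve has an irreducible equation -/
theorem exists_form {p : Fin 3 → Polynomial ℂ} {D : ℕ} (hp : ∀ i, (p i).natDegree ≤ D) :
    ∃ (d : ℕ) (F : MvPolynomial (Fin 3) ℂ), F.IsHomogeneous d ∧ Irreducible F ∧ aeval p F = 0 := by
  classical
  have hex : ∃ n, ∃ F : MvPolynomial (Fin 3) ℂ, F.IsHomogeneous n ∧ F ≠ 0 ∧ aeval p F = 0 := by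
    have h1 := finrank_LL hp (2 * D + 1)
    have h2 := two_choose (2 * D + 1)
    have h3 : 0 < Module.finrank ℂ (LinearMap.ker (LL hp (2 * D + 1))) := by nlinarith
    have h4 : LinearMap.ker (LL hp (2 * D + 1)) ≠ ⊥ := by
      intro h
      rw [h, finrank_bot] at h3
      exact lt_irrefl _ h3
    obtain ⟨x, hx, hx0⟩ := Submodule.exists_mem_ne_zero_of_ne_bot h4
    refine ⟨2 * D + 1, x.1, (mem_homogeneousSubmodule _ _).1 x.2, ?_, (LL_ker hp _ _).1 hx⟩
    intro h
    exact hx0 (Subtype.ext h)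
  obtain ⟨F, hF, hF0, hFp⟩ := Nat.find_spec hex
  have hmin := fun m => Nat.find_min (m := m) hex
  set d := Nat.find hex
  refine ⟨d, F, hF, ⟨?_, ?_⟩, hFp⟩
  · intro hu
    have := hu.map (aeval p : MvPolynomial (Fin 3) ℂ →ₐ[ℂ] Polynomial ℂ)
    rw [hFp] at this
    exact not_isUnit_zero this
  · intro A B hAB
    have hA : A.IsHomogeneous A.totalDegree := homog_of_dvd hF hF0 ⟨B, hAB⟩
    have hB : B.IsHomogeneous B.totalDegree := homog_of_dvd hF hF0 ⟨A, by rw [hAB, mul_comm]⟩
    rw [hAB] at hF0 hFp hF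
    have hA0 := left_ne_zero_of_mul hF0
    have hB0 := right_ne_zero_of_mul hF0
    have hdeg : A.totalDegree + B.totalDegree = d := by
      rw [← totalDegree_mul_of_isDomain hA0 hB0]
      exact hF.totalDegree hF0
    have hunit : ∀ C' : MvPolynomial (Fin 3) ℂ, C' ≠ 0 → C'.totalDegree = 0 → IsUnit C' := by
      intro C' hC hC0
      rw [totalDegree_eq_zero_iff_eq_C] at hC0
      rw [hC0]
      rw [hC0] at hC
      refine (isUnit_iff_ne_zero.2 ?_).map C
      intro h
      rw [h, C_0] at hC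
      exact hC rfl
    rw [map_mul, mul_eq_zero] at hFp
    rcases hFp with h | h
    · right
      apply hunit B hB0
      have := hmin A.totalDegree
      by_contra hne
      exact this (by omega) ⟨A, hA, hA0, h⟩
    · left
      apply hunit A hA0
      have := hmin B.totalDegree
      by_contra hne
      exact this (by omega) ⟨B, hB, hB0, h⟩

/-- degree bound -/
theorem degree_le {p : Fin 3 → Polynomial ℂ} {D : ℕ} (hp : ∀ i, (p i).natDegree ≤ D)
    (hinf : (img p).Infinite) {F : MvPolynomial (Fin 3) ℂ} {d : ℕ} (hF : F.IsHomogeneous d)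
    (hFi : Irreducible F) (hF0 : aeval p F = 0) : d ≤ D := by
  by_contra hlt
  push Not at hlt
  set n := d + (D * d + 2) with hn
  have h1 := finrank_LL hp n
  have h2 := two_choose n
  have h3 := two_choose (D * d + 2)
  -- the kernel consists of multiples of `F`
  let μ : homogeneousSubmodule (Fin 3) ℂ (D * d + 2) →ₗ[ℂ] homogeneousSubmodule (Fin 3) ℂ n :=
    LinearMap.codRestrict _ ((LinearMap.mulLeft ℂ F) ∘ₗ
      (homogeneousSubmodule (Fin 3) ℂ (D * d + 2)).subtype)
      (fun G => (mem_homogeneousSubmodule n _).2 (hF.mul ((mem_homogeneousSubmodule _ _).1 G.2)))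
  have h4 : LinearMap.ker (LL hp n) ≤ LinearMap.range μ := by
    intro G hG
    rw [LL_ker] at hG
    obtain ⟨K, hK⟩ := dvd_of_param hinf hF hFi hF0 ((mem_homogeneousSubmodule _ _).1 G.2) hG
    by_cases hG0 : G.1 = 0
    · refine ⟨0, ?_⟩
      rw [map_zero]
      exact Subtype.ext hG0.symm
    · have hKh : K.IsHomogeneous K.totalDegree :=
        homog_of_dvd ((mem_homogeneousSubmodule _ _).1 G.2) hG0 ⟨F, by rw [hK, mul_comm]⟩
      have hK0 : K ≠ 0 := by
        rintro rfl
        exact hG0 (by rw [hK, mul_zero])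
      have hdeg : d + K.totalDegree = n := by
        have e1 : G.1.totalDegree = n := ((mem_homogeneousSubmodule _ _).1 G.2).totalDegree hG0
        rw [hK, totalDegree_mul_of_isDomain hFi.ne_zero hK0, hF.totalDegree hFi.ne_zero] at e1
        exact e1
      have hKd : K.totalDegree = D * d + 2 := by omega
      rw [hKd] at hKh
      exact ⟨⟨K, (mem_homogeneousSubmodule _ _).2 hKh⟩, Subtype.ext hK.symm⟩
  have h5 : Module.finrank ℂ (LinearMap.ker (LL hp n)) ≤ (D * d + 2 + 2).choose 2 := by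
    rw [← finrank_forms (k := ℂ)]
    exact (Submodule.finrank_mono h4).trans (LinearMap.finrank_range_le μ)
  have h6 : (n + 2) * (n + 1) ≤ 2 * (D * n + 1) + (D * d + 2 + 2) * (D * d + 2 + 1) := by
    rw [← h2, ← h3]
    omega
  obtain ⟨e, he⟩ : ∃ e, d = D + 1 + e := ⟨d - (D + 1), by omega⟩
  obtain ⟨k, hk⟩ : ∃ k, k = D * d + 2 := ⟨_, rfl⟩
  rw [← hk] at hn h6
  clear h5 h4 h3 h2 h1 μ
  rw [hn] at h6
  have h7 : 2 * (d * k) + 3 * d + d * d ≤ 2 * (D * d) + 2 * (D * k) + 2 := by nlinarith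
  have h8 : d * k = D * k + k + e * k := by rw [he]; ring
  have h9 : 0 ≤ e * k := Nat.zero_le _
  omega

end Pool.Agent.Q79.HC
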